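import Mathlib

set_option autoImplicit false

/-!
# Two-coloured cubes: cocycles of the cube and flips
-/

namespace Pool.Agent.H292R3.FS

/-- The `n`-cube, written as in the frozen statements. -/
abbrev cube (n : ℕ) : SimpleGraph (Fin n → Bool) :=
  SimpleGraph.fromRel fun x y : Fin n → Bool => hammingDist x y = 1

/-- Change the `i`-th coordinate. -/
def fl {n : ℕ} (i : Fin n) (x : Fin n → Bool) : Fin n → Bool := Function.update x i (!x i)

lemma fl_fl {n : ℕ} (i : Fin n) (x : Fin n → Bool) : fl i (fl i x) = x := by
  funext j
  by_cases h : j = i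
  · subst h; simp [fl]
  · simp [fl, h]

lemma fl_comm {n : ℕ} (i j : Fin n) (x : Fin n → Bool) : fl i (fl j x) = fl j (fl i x) := by
  by_cases hij : i = j
  · subst hij; rfl
  funext k
  by_cases hi : k = i
  · subst hi; simp [fl, hij]
  · by_cases hj : k = j
    · subst hj; simp [fl, Ne.symm hij]
    · simp [fl, hi, hj]

lemma fl_ne {n : ℕ} (i : Fin n) (x : Fin n → Bool) : fl i x ≠ x := by
  intro h
  have := congrFun h i
  simp [fl] at this

lemma adj_iff {n : ℕ} (x y : Fin n → Bool) : (cube n).Adj x y ↔ ∃ i, y = fl i x := by
  have key : ∀ a b : Fin n → Bool, hammingDist a b = 1 → ∃ i, b = fl i a := by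
    intro a b h
    unfold hammingDist at h
    rw [Finset.card_eq_one] at h
    obtain ⟨i, hi⟩ := h
    refine ⟨i, ?_⟩
    funext j
    have hj : (a j ≠ b j) ↔ j = i := by
      have := congrArg (fun s => j ∈ s) hi
      simpa using this
    by_cases h : j = i
    · subst h
      have h1 := hj.2 rfl
      simp only [fl, Function.update_self]
      revert h1
      cases a j <;> cases b j <;> simp
    · have h1 : a j = b j := by
        by_contra h2
        exact h (hj.1 h2)
      simp [fl, h, h1]
  have key2 : ∀ (a : Fin n → Bool) (i : Fin n), hammingDist a (fl i a) = 1 := by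
    intro a i
    unfold hammingDist
    rw [Finset.card_eq_one]
    refine ⟨i, ?_⟩
    ext j
    rw [Finset.mem_filter, Finset.mem_singleton]
    by_cases h : j = i
    · subst h; simp [fl]
    · simp [fl, h]
  rw [SimpleGraph.fromRel_adj]
  constructor
  · rintro ⟨_, h | h⟩
    · exact key _ _ h
    · obtain ⟨i, hi⟩ := key _ _ h
      exact ⟨i, by rw [hi, fl_fl]⟩
  · rintro ⟨i, rfl⟩
    exact ⟨(fl_ne i x).symm, Or.inl (key2 x i)⟩

lemma adj_fl {n : ℕ} (x : Fin n → Bool) (i : Fin n) : (cube n).Adj x (fl i x) :=
  (adj_iff x _).2 ⟨i, rfl⟩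

/-- The first cohomology of the cube vanishes. -/
lemma exists_pot : ∀ (n : ℕ) (f : (Fin n → Bool) → Fin n → Bool),
    (∀ v i, f (fl i v) i = f v i) →
    (∀ v i j, i ≠ j → xor (f v i) (f (fl i v) j) = xor (f v j) (f (fl j v) i)) →
    ∃ g : (Fin n → Bool) → Bool, ∀ v i, xor (g v) (g (fl i v)) = f v i := by
  intro n
  induction n with
  | zero => intro f _ _; exact ⟨fun _ => false, fun v i => i.elim0⟩
  | succ n ih =>
    intro f h1 h2
    have e0 : ∀ (b : Bool) (w : Fin n → Bool),
        fl 0 (Fin.cons b w : Fin (n + 1) → Bool) = Fin.cons (!b) w := by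
      intro b w
      funext j
      refine Fin.cases ?_ (fun j => ?_) j
      · simp [fl]
      · simp [fl, Fin.succ_ne_zero]
    have es : ∀ (b : Bool) (w : Fin n → Bool) (i : Fin n),
        fl i.succ (Fin.cons b w : Fin (n + 1) → Bool) = Fin.cons b (fl i w) := by
      intro b w i
      funext j
      refine Fin.cases ?_ (fun j => ?_) j
      · simp [fl, (Fin.succ_ne_zero i).symm]
      · by_cases h : j = i
        · subst h; simp [fl]
        · simp [fl, h, Fin.succ_inj]
    obtain ⟨g', hg'⟩ := ih (fun w i => f (Fin.cons false w) i.succ)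
      (fun w i => by
        have := h1 (Fin.cons false w) i.succ
        rw [es] at this
        exact this)
      (fun w i j hij => by
        have := h2 (Fin.cons false w) i.succ j.succ (fun h => hij (Fin.succ_inj.mp h))
        rw [es, es] at this
        exact this)
    refine ⟨fun v => if v 0 then xor (g' (Fin.tail v)) (f (Fin.cons false (Fin.tail v)) 0)
      else g' (Fin.tail v), ?_⟩
    intro v i
    obtain ⟨b, w, rfl⟩ : ∃ b w, v = (Fin.cons b w : Fin (n + 1) → Bool) :=
      ⟨v 0, Fin.tail v, (Fin.cons_self_tail v).symm⟩
    refine Fin.cases ?_ (fun i => ?_) i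
    · rw [e0]
      simp only [Fin.cons_zero, Fin.tail_cons]
      cases b
      · simp
      · have := h1 (Fin.cons true w) 0
        rw [e0] at this
        simp only [Bool.not_true] at this
        simp only [Bool.not_true, Bool.false_eq_true, if_false, if_true, this]
        generalize g' w = p
        generalize f (Fin.cons true w) 0 = q
        cases p <;> cases q <;> rfl
    · rw [es]
      simp only [Fin.cons_zero, Fin.tail_cons]
      have hg := hg' w i
      cases b
      · simpa using hg
      · have h3 := h2 (Fin.cons false w) 0 i.succ (Fin.succ_ne_zero i).symm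
        rw [e0, es] at h3
        simp only [Bool.not_false] at h3
        simp only [if_true]
        rw [← hg] at h3
        revert h3
        generalize f (Fin.cons false w) 0 = a
        generalize f (Fin.cons true w) i.succ = b
        generalize f (Fin.cons false (fl i w)) 0 = d
        generalize g' w = p
        generalize g' (fl i w) = q
        cases a <;> cases b <;> cases d <;> cases p <;> cases q <;> simp

end Pool.Agent.H292R3.FS
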