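import Mathlib
import Pool.Agent.H292R3.FS.Basic

set_option autoImplicit false

/-!
# A loop argument for automorphisms of the cube that move some vertex by distance three
-/

namespace Pool.Agent.H292R3.FS.Loop

open Pool.Agent.H292R3.FS

variable {n : ℕ}

/-- The graph formed by the edges of colour `b`. -/
def mono (c : Sym2 (Fin n → Bool) → Bool) (b : Bool) : SimpleGraph (Fin n → Bool) where
  Adj x y := (cube n).Adj x y ∧ c s(x, y) = b
  symm := ⟨fun x y h => ⟨h.1.symm, by rw [Sym2.eq_swap]; exact h.2⟩⟩
  loopless := ⟨fun x h => h.1.ne rfl⟩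

variable {c : Sym2 (Fin n → Bool) → Bool}

lemma step (x : Fin n → Bool) (i : Fin n) :
    (mono c (c s(x, fl i x))).Reachable x (fl i x) :=
  SimpleGraph.Adj.reachable (G := mono c _) ⟨adj_fl x i, rfl⟩

lemma step' {x y : Fin n → Bool} {b : Bool} (i : Fin n) (hy : y = fl i x)
    (hb : c s(x, fl i x) = b) : (mono c b).Reachable x y := by
  subst hy; subst hb; exact step x i

lemma ne_iff_not {b b' : Bool} (h : b' ≠ b) : b' = !b := by
  revert h; cases b <;> cases b' <;> simp

/-- the combinatorial core -/
theorem core (P : ℕ → Fin n → Bool) (a : ℕ → Fin n) (g : ℕ → Bool) (l : ℕ)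
    (hP : ∀ k, P (k + 1) = fl (a k) (P k)) (ha : ∀ k, a (k + (l + 1)) = a k)
    (hg : ∀ k, c s(P k, fl (a k) (P k)) = g k) (hg' : ∀ k, g (k + 1) = !(g k))
    (hF : ∀ k b b' w, (mono c b).Reachable (P k) w → (mono c b').Reachable w (P (k + 3)) →
      False) : False := by
  have e : ∀ k, (mono c (g k)).Reachable (P k) (P (k + 1)) :=
    fun k => step' (a k) (hP k) (hg k)
  -- level
  let Lv : ℕ → (Fin n → Bool) → Prop := fun k w => ∀ b, (mono c b).Reachable (P k) w
  have rule : ∀ k W W' X, Lv (k + 1) W → Lv (k + 3) W' → (cube n).Adj W X →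
      (cube n).Adj X W' → Lv (k + 2) X := by
    intro k W W' X hW hW' h1 h2
    have g1 : g (k + 2) = !(g (k + 1)) := hg' (k + 1)
    have g2 : g (k + 3) = g (k + 1) := by rw [hg' (k + 2), g1, Bool.not_not]
    have g0 : g k = !(g (k + 1)) := by rw [hg' k, Bool.not_not]
    have r1 : (mono c (c s(W, X))).Reachable W X :=
      SimpleGraph.Adj.reachable (G := mono c _) ⟨h1, rfl⟩
    have r2 : (mono c (c s(X, W'))).Reachable X W' :=
      SimpleGraph.Adj.reachable (G := mono c _) ⟨h2, rfl⟩
    by_cases hα : c s(W, X) = g (k + 1)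
    · rw [hα] at r1
      have q1 := (hW (g (k + 1))).trans r1
      by_cases hβ : c s(X, W') = g (k + 1)
      · exfalso
        rw [hβ] at r2
        have q2 := (q1.trans r2).trans (hW' (g (k + 1))).symm
        have q3 := e (k + 3)
        rw [g2] at q3
        exact hF (k + 1) _ (g (k + 1)) _ (q2.trans q3) (SimpleGraph.Reachable.refl _)
      · rw [ne_iff_not hβ] at r2
        intro b
        by_cases hb : b = g (k + 1)
        · subst hb
          exact (e (k + 1)).symm.trans q1
        · have hb2 := ne_iff_not hb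
          subst hb2
          have q3 := e (k + 2)
          rw [g1] at q3
          exact q3.trans ((hW' _).trans r2.symm)
    · rw [ne_iff_not hα] at r1
      have q1 := (hW (!(g (k + 1)))).trans r1
      by_cases hβ : c s(X, W') = g (k + 1)
      · exfalso
        rw [hβ] at r2
        have q3 := e (k + 3)
        rw [g2] at q3
        exact hF (k + 1) _ (g (k + 1)) _ q1 ((r2.trans (hW' _).symm).trans q3)
      · exfalso
        rw [ne_iff_not hβ] at r2
        have q0 := e k
        rw [g0] at q0
        exact hF k _ (g (k + 1)) _ (((q0.trans q1).trans r2).trans (hW' _).symm)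
          (SimpleGraph.Reachable.refl _)
  -- the loop
  have loop : ∀ j, j ≤ l → Lv (1 + (l + 1) + (l - j) + 1)
      (fl (a (1 + l)) (P (1 + (l + 1) + (l - j)))) := by
    intro j
    induction j with
    | zero =>
      intro _
      have h1 : a (1 + (l + 1) + (l - 0)) = a (1 + l) := by
        rw [show 1 + (l + 1) + (l - 0) = (1 + l) + (l + 1) by omega, ha]
      have h2 : fl (a (1 + l)) (P (1 + (l + 1) + (l - 0))) = P (1 + (l + 1) + (l - 0) + 1) := by
        rw [hP, h1]
      rw [h2]
      intro b
      exact SimpleGraph.Reachable.refl _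
    | succ j ih =>
      intro hj
      have hprev := ih (by omega)
      obtain ⟨m, hm⟩ : ∃ m, 1 + (l + 1) + (l - (j + 1)) = m + 1 := ⟨1 + l + (l - (j + 1)), by omega⟩
      have hm2 : 1 + (l + 1) + (l - j) = m + 2 := by omega
      rw [hm2] at hprev
      rw [hm]
      refine rule m (P (m + 1)) (fl (a (1 + l)) (P (m + 2))) _ (fun b =>
        SimpleGraph.Reachable.refl _) hprev (adj_fl _ _) ?_
      rw [hP (m + 1), fl_comm]
      exact adj_fl _ _
  have hfin := loop l le_rfl
  rw [show 1 + (l + 1) + (l - l) = (l + 1) + 1 by omega, show 1 + l = l + 1 by omega,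
    hP (l + 1), fl_fl] at hfin
  have q := e (l + 3)
  exact hF (l + 1) _ (g (l + 3)) _ ((hfin (g (l + 3))).symm.trans q)
    (SimpleGraph.Reachable.refl _)

/-- direction permutation of an automorphism -/
structure HasDir (φ : (Fin n → Bool) → (Fin n → Bool)) (π : Equiv.Perm (Fin n)) : Prop where
  eq : ∀ x i, φ (fl i x) = fl (π i) (φ x)

/-- no vertex is joined to its image by a path with at most one colour change -/
def Bad (c : Sym2 (Fin n → Bool) → Bool) (φ : (Fin n → Bool) → (Fin n → Bool)) : Prop :=
  ∀ v w b b', (mono c b).Reachable v w → (mono c b').Reachable w (φ v) → False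

/-- `φ` moves `v` in the directions `a`, `b`, `d` -/
def Tr (φ : (Fin n → Bool) → (Fin n → Bool)) (v : Fin n → Bool) (a b d : Fin n) : Prop :=
  φ v = fl a (fl b (fl d v))

section

variable {φ : (Fin n → Bool) → (Fin n → Bool)} {π : Equiv.Perm (Fin n)}

lemma Tr.rot {v : Fin n → Bool} {a b d : Fin n} (h : Tr φ v a b d) : Tr φ v b d a := by
  unfold Tr at *
  rw [h, fl_comm a b, fl_comm a d]

lemma Tr.swap {v : Fin n → Bool} {a b d : Fin n} (h : Tr φ v a b d) : Tr φ v b a d := by
  unfold Tr at *
  rw [h, fl_comm a b]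

lemma Tr.succ (hπ : HasDir φ π) {v : Fin n → Bool} {a b d : Fin n} (h : Tr φ v a b d) :
    Tr φ (fl a v) (π a) b d := by
  unfold Tr at *
  rw [hπ.eq, h, fl_comm d a, fl_comm b a]

lemma Tr.pred (hπ : HasDir φ π) {v : Fin n → Bool} {a b d : Fin n} (h : Tr φ v a b d) :
    Tr φ (fl (π.symm a) v) (π.symm a) b d := by
  unfold Tr at *
  rw [hπ.eq, h, Equiv.apply_symm_apply, fl_fl, fl_comm d (π.symm a), fl_comm b (π.symm a), fl_fl]

/-- colour of the edge at `v` in direction `i` -/
def col (c : Sym2 (Fin n → Bool) → Bool) (v : Fin n → Bool) (i : Fin n) : Bool := c s(v, fl i v)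

lemma rch {v : Fin n → Bool} {i : Fin n} {b : Bool} (h : col c v i = b) :
    (mono c b).Reachable v (fl i v) := step' i rfl h

lemma Tr.alt (hbad : Bad c φ) {v : Fin n → Bool} {a b d : Fin n} (h : Tr φ v a b d) :
    col c (fl a v) b = !(col c v a) := by
  apply ne_iff_not
  intro h1
  have h' : φ v = fl d (fl b (fl a v)) := by
    unfold Tr at h
    rw [h, fl_comm b d, fl_comm a d, fl_comm a b]
  have r1 : (mono c (col c v a)).Reachable v (fl b (fl a v)) :=
    (rch rfl).trans (rch h1)
  refine hbad v (fl b (fl a v)) _ (col c (fl b (fl a v)) d) r1 ?_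
  rw [h']
  exact rch rfl

lemma Tr.eq2 (hπ : HasDir φ π) (hbad : Bad c φ) {v : Fin n → Bool} {a b d : Fin n}
    (h : Tr φ v a b d) : col c v a = col c v b := by
  have h1 := h.rot.rot.pred hπ
  have h2 := h1.alt hbad
  have h3 : Tr φ (fl (π.symm d) v) (π.symm d) b a := by
    have := h1.rot.swap.rot.rot
    exact this
  have h4 := h3.alt hbad
  rw [fl_fl] at h2 h4
  rw [h2, h4]

lemma Tr.succ_col (hπ : HasDir φ π) (hbad : Bad c φ) {v : Fin n → Bool} {a b d : Fin n}
    (h : Tr φ v a b d) : col c (fl a v) (π a) = !(col c v a) := by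
  rw [← h.alt hbad]
  exact (h.succ hπ).eq2 hπ hbad

theorem no_bad (hπ : HasDir φ π) (hbad : Bad c φ) {v : Fin n → Bool} {a b d : Fin n}
    (h : Tr φ v a b d) : False := by
  classical
  let A : ℕ → Fin n := fun k => (π ^ k) a
  let P : ℕ → Fin n → Bool := fun k => Nat.rec v (fun k x => fl (A k) x) k
  have hP : ∀ k, P (k + 1) = fl (A k) (P k) := fun k => rfl
  have hA : ∀ k, A (k + 1) = π (A k) := fun k => by
    simp only [A, pow_succ', Equiv.Perm.mul_apply]
  have hT : ∀ k, Tr φ (P k) (A k) b d := by
    intro k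
    induction k with
    | zero => exact h
    | succ k ih =>
      rw [hP, hA]
      exact ih.succ hπ
  have hpos : 0 < orderOf π := orderOf_pos π
  obtain ⟨l, hl⟩ : ∃ l, orderOf π = l + 1 := ⟨orderOf π - 1, by omega⟩
  refine core (c := c) P A (fun k => col c (P k) (A k)) l hP ?_ (fun k => rfl) ?_ ?_
  · intro k
    change (π ^ (k + (l + 1))) a = (π ^ k) a
    rw [pow_add, ← hl, pow_orderOf_eq_one, mul_one]
  · intro k
    rw [hP, hA]
    exact (hT k).succ_col hπ hbad
  · intro k β β' w h1 h2
    refine hbad (P k) w β β' h1 (h2.trans ?_)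
    -- reachability between `P (k+3)` and `φ (P k)` in both colours
    have t0 := hT k
    have t1 := hT (k + 1)
    have t2 := hT (k + 2)
    have t3 := hT (k + 3)
    have e1 : P (k + 1) = fl (A k) (P k) := rfl
    have e2 : P (k + 2) = fl (A (k + 1)) (P (k + 1)) := rfl
    have e3 : P (k + 3) = fl (A (k + 2)) (P (k + 2)) := rfl
    have hφ : φ (P k) = fl d (fl b (P (k + 1))) := by
      have := t0
      unfold Tr at this
      rw [this, e1, fl_comm b d, fl_comm (A k) d, fl_comm (A k) b]
    set γ := col c (P k) (A k) with hγ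
    have c1 : col c (P (k + 1)) (A (k + 1)) = !γ := by
      rw [hA]; exact t0.succ_col hπ hbad
    have c2 : col c (P (k + 2)) (A (k + 2)) = γ := by
      have := t1.succ_col hπ hbad
      rw [← hA, c1, Bool.not_not] at this
      exact this
    have c3 : col c (P (k + 3)) (A (k + 3)) = !γ := by
      have := t2.succ_col hπ hbad
      rw [← hA, c2] at this
      exact this
    -- vertices `P (k+1) + b`, `P (k+2) + b`, `P (k+3) + b`
    have s1 : Tr φ (fl b (P (k + 1))) (A (k + 1)) (π b) d := (t1.swap.succ hπ).swap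
    have s2 : Tr φ (fl b (P (k + 2))) (A (k + 2)) (π b) d := (t2.swap.succ hπ).swap
    have d1 : col c (fl b (P (k + 1))) (A (k + 1)) = γ := by
      have := t1.swap.alt hbad
      rw [this, ← t1.eq2 hπ hbad, c1, Bool.not_not]
    have d2 : col c (fl b (P (k + 2))) (A (k + 2)) = !γ := by
      have := t2.swap.alt hbad
      rw [this, ← t2.eq2 hπ hbad, c2]
    have d1' : col c (fl b (P (k + 1))) d = γ := by
      rw [← d1]
      exact s1.rot.rot.eq2 hπ hbad
    have d2' : col c (fl b (P (k + 2))) d = !γ := by
      rw [← d2]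
      exact s2.rot.rot.eq2 hπ hbad
    have f1 : col c (fl d (fl b (P (k + 1)))) (A (k + 1)) = !γ := by
      have := s1.rot.rot.alt hbad
      rw [this, d1']
    have z1 : fl b (P (k + 2)) = fl (A (k + 1)) (fl b (P (k + 1))) := by rw [e2, fl_comm]
    have z2 : fl b (P (k + 3)) = fl (A (k + 2)) (fl b (P (k + 2))) := by rw [e3, fl_comm]
    have z3 : fl d (fl b (P (k + 2))) = fl (A (k + 1)) (fl d (fl b (P (k + 1)))) := by
      rw [z1, fl_comm]
    by_cases hβ : β' = γ
    · rw [hβ]
      have r1 : (mono c γ).Reachable (P (k + 2)) (P (k + 3)) := rch c2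
      have r2 : (mono c γ).Reachable (P (k + 2)) (fl b (P (k + 2))) :=
        rch (by rw [← t2.eq2 hπ hbad]; exact c2)
      have r3 : (mono c γ).Reachable (fl b (P (k + 1))) (fl b (P (k + 2))) := by
        rw [z1]; exact rch d1
      have r4 : (mono c γ).Reachable (fl b (P (k + 1))) (fl d (fl b (P (k + 1)))) := rch d1'
      rw [hφ]
      exact ((r1.symm.trans r2).trans r3.symm).trans r4
    · rw [ne_iff_not hβ]
      have r1 : (mono c (!γ)).Reachable (P (k + 3)) (fl b (P (k + 3))) :=
        rch (by rw [← t3.eq2 hπ hbad]; exact c3)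
      have r2 : (mono c (!γ)).Reachable (fl b (P (k + 2))) (fl b (P (k + 3))) := by
        rw [z2]; exact rch d2
      have r3 : (mono c (!γ)).Reachable (fl b (P (k + 2))) (fl d (fl b (P (k + 2)))) := rch d2'
      have r4 : (mono c (!γ)).Reachable (fl d (fl b (P (k + 1)))) (fl d (fl b (P (k + 2)))) := by
        rw [z3]; exact rch f1
      rw [hφ]
      exact ((r1.trans r2.symm).trans r3).trans r4.symm

end

lemma fl_of_ne {i k : Fin n} (h : k ≠ i) (x : Fin n → Bool) : fl i x k = x k := by
  simp [fl, h]

lemma fl_at (i : Fin n) (x : Fin n → Bool) : fl i x i = !(x i) := by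
  simp [fl]

lemma quad {y : Fin n → Bool} {A B C D : Fin n} (hAB : A ≠ B) (hCA : C ≠ A)
    (h : fl C (fl A y) = fl D (fl B y)) : C = B := by
  by_contra hCB
  have h1 := congrFun h A
  rw [fl_of_ne hCA.symm, fl_at] at h1
  have hAD : A = D := by
    by_contra hAD
    rw [fl_of_ne hAD, fl_of_ne hAB] at h1
    revert h1
    cases y A <;> simp
  have h2 := congrFun h C
  rw [fl_at, fl_of_ne hCA, fl_of_ne (show C ≠ D from fun h => hCA (h.trans hAD.symm)),
    fl_of_ne hCB] at h2
  revert h2
  cases y C <;> simp

/-- every automorphism has a direction permutation -/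
lemma exists_dir (φ : cube n ≃g cube n) : ∃ π : Equiv.Perm (Fin n), HasDir φ π := by
  classical
  have h1 : ∀ x i, ∃ j, φ (fl i x) = fl j (φ x) := by
    intro x i
    exact (adj_iff _ _).1 (φ.map_adj_iff.2 (adj_fl x i))
  choose p hp using h1
  have flinj : ∀ (i j : Fin n) (x : Fin n → Bool), fl i x = fl j x → i = j := by
    intro i j x h
    by_contra hij
    have := congrFun h i
    simp [fl, hij] at this
  have hinj : ∀ x, Function.Injective (p x) := by
    intro x i j hij
    have h2 : φ (fl i x) = φ (fl j x) := by rw [hp, hp, hij]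
    exact flinj _ _ _ (φ.injective h2)
  have hself : ∀ x i, p (fl i x) i = p x i := by
    intro x i
    have h2 := hp (fl i x) i
    rw [fl_fl, hp x i] at h2
    have h3 : fl (p x i) (φ x) = fl (p (fl i x) i) (φ x) := by
      have := congrArg (fl (p (fl i x) i)) h2
      rw [fl_fl] at this
      exact this.symm
    exact (flinj _ _ _ h3).symm
  have hne : ∀ x i j, i ≠ j → p (fl i x) j = p x j := by
    intro x i j hij
    have e1 : φ (fl j (fl i x)) = fl (p (fl i x) j) (fl (p x i) (φ x)) := by rw [hp, hp]
    have e2 : φ (fl j (fl i x)) = fl (p (fl j x) i) (fl (p x j) (φ x)) := by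
      rw [fl_comm, hp, hp]
    have e3 : fl (p (fl i x) j) (fl (p x i) (φ x)) = fl (p (fl j x) i) (fl (p x j) (φ x)) := by
      rw [← e1, e2]
    have hij' : p x i ≠ p x j := fun h => hij (hinj x h)
    have hA : p (fl i x) j ≠ p x i := by
      intro h
      rw [h, fl_fl] at e1
      have : fl j (fl i x) = x := φ.injective e1
      have h5 := congrFun this i
      simp [fl, hij] at h5
    exact quad hij' hA e3
  have hconst : ∀ x i, p (fl i x) = p x := by
    intro x i
    funext j
    by_cases h : i = j
    · subst h; exact hself x i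
    · exact hne x i j h
  have hall : ∀ s : Finset (Fin n), ∀ x y, p (s.piecewise y x) = p x := by
    intro s x y
    induction s using Finset.induction_on with
    | empty => simp
    | insert i s hi ih =>
      rw [Finset.piecewise_insert]
      by_cases h : s.piecewise y x i = y i
      · rw [← h, Function.update_eq_self]
        exact ih
      · have : Function.update (s.piecewise y x) i (y i) = fl i (s.piecewise y x) := by
          unfold fl
          congr 1
          revert h
          cases y i <;> cases s.piecewise y x i <;> simp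
        rw [this, hconst]
        exact ih
  have hc : ∀ x, p x = p (fun _ => false) := by
    intro x
    have := hall Finset.univ (fun _ => false) x
    simpa using this
  refine ⟨Equiv.ofBijective (p fun _ => false)
    (Finite.injective_iff_bijective.1 (hinj _)), ⟨fun x i => ?_⟩⟩
  rw [hp x i, hc x]
  rfl

end Pool.Agent.H292R3.FS.Loop
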