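import Mathlib
import Pool.Agent.H292R3.FS.Basic

set_option autoImplicit false

/-!
# The fixed point theorem for two tree-like partitions of the cube
-/

namespace Pool.Agent.H292R3.FS.FX

open Pool.Agent.H292R3.FS

/-- Two partitions of the cube into connected classes such that the ends of every edge are
in one class, with a condition on 4-cycles. -/
structure Sys (n : ℕ) where
  /-- the two equivalence relations -/
  E : Bool → (Fin n → Bool) → (Fin n → Bool) → Prop
  refl : ∀ b x, E b x x
  symm : ∀ b x y, E b x y → E b y x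
  trans : ∀ b x y z, E b x y → E b y z → E b x z
  cover : ∀ b x y, (cube n).Adj x y → ¬ E b x y → E (!b) x y
  conn : ∀ b x y, E b x y → Relation.ReflTransGen (fun a d => (cube n).Adj a d ∧ E b a d) x y
  sq : ∀ b v i j, i ≠ j → E b v (fl i v) → E b (fl j v) (fl i (fl j v)) →
    ¬ E b (fl i v) (fl i (fl j v)) → ¬ E b v (fl j v) → ∃ b', E b' v (fl i (fl j v))

theorem bool_sq : ∀ d12 d23 d14 d43 k1 k2 k3 k4 l1 l2 l3 l4 : Bool,
    ((if d12 then k1 == k2 else l1 == l2) &&
    (if d23 then k2 == k3 else l2 == l3) &&
    (if d14 then k1 == k4 else l1 == l4) &&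
    (if d43 then k4 == k3 else l4 == l3) &&
    (!(d12 == d43) || !(d23 == d14) || (d12 == d14) || (k1 == k3) || (l1 == l3))) = true →
    xor (d12 && xor (k1 && l1) (k2 && l2)) (d23 && xor (k2 && l2) (k3 && l3)) =
      xor (d14 && xor (k1 && l1) (k4 && l4)) (d43 && xor (k4 && l4) (k3 && l3)) := by
  decide +kernel

section

variable {n : ℕ} (S : Sys n)

open Classical in
/-- membership in the intersection of the two classes of `w` -/
noncomputable def mem (b : Bool) (w v : Fin n → Bool) : Bool :=
  decide (S.E b w v) && decide (S.E (!b) w v)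

open Classical in
/-- The crossings at the class `b` of `w`. -/
noncomputable def cro (b : Bool) (w v : Fin n → Bool) (i : Fin n) : Bool :=
  decide (S.E b v (fl i v)) && xor (mem S b w v) (mem S b w (fl i v))

variable {S}

lemma iff_of {b : Bool} {w x y : Fin n → Bool} (h : S.E b x y) : S.E b w x ↔ S.E b w y :=
  ⟨fun h1 => S.trans _ _ _ _ h1 h, fun h1 => S.trans _ _ _ _ h1 (S.symm _ _ _ h)⟩

lemma ne_iff_not {b b' : Bool} (h : b' ≠ b) : b' = !b := by
  revert h; cases b <;> cases b' <;> simp

open Classical in
lemma step_ok {b : Bool} {w x y : Fin n → Bool} (h : (cube n).Adj x y) :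
    (if decide (S.E b x y) then decide (S.E b w x) == decide (S.E b w y)
    else decide (S.E (!b) w x) == decide (S.E (!b) w y)) = true := by
  by_cases hb : S.E b x y
  · have := iff_of (w := w) hb
    simp [hb, this]
  · have h2 := S.cover b x y h hb
    have := iff_of (w := w) h2
    simp [hb, this]

open Classical in
lemma cro_sq (b : Bool) (w v : Fin n → Bool) (i j : Fin n) (hij : i ≠ j) :
    xor (cro S b w v i) (cro S b w (fl i v) j) =
      xor (cro S b w v j) (cro S b w (fl j v) i) := by
  have hg1 := S.sq b v i j hij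
  have hg2 := S.sq b v j i (Ne.symm hij)
  unfold cro mem
  rw [fl_comm j i v] at *
  have a12 : (cube n).Adj v (fl i v) := adj_fl v i
  have a14 : (cube n).Adj v (fl j v) := adj_fl v j
  have a23 : (cube n).Adj (fl i v) (fl i (fl j v)) := by rw [fl_comm]; exact adj_fl _ j
  have a43 : (cube n).Adj (fl j v) (fl i (fl j v)) := adj_fl _ i
  apply bool_sq
  simp only [Bool.and_eq_true]
  refine ⟨⟨⟨⟨step_ok a12, step_ok a23⟩, step_ok a14⟩, step_ok a43⟩, ?_⟩
  have fin : (∃ b', S.E b' v (fl i (fl j v))) →
      ((decide (S.E b w v) == decide (S.E b w (fl i (fl j v)))) = true ∨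
      (decide (S.E (!b) w v) == decide (S.E (!b) w (fl i (fl j v)))) = true) := by
    rintro ⟨b', hb⟩
    by_cases h : b' = b
    · subst h
      left
      have := iff_of (w := w) hb
      simp [this]
    · have hb' := ne_iff_not h
      subst hb'
      right
      have := iff_of (w := w) hb
      simp [this]
  by_cases h12 : S.E b v (fl i v) <;> by_cases h43 : S.E b (fl j v) (fl i (fl j v)) <;>
  by_cases h23 : S.E b (fl i v) (fl i (fl j v)) <;> by_cases h14 : S.E b v (fl j v)
  all_goals simp only [h12, h43, h23, h14, decide_true, decide_false, beq_self_eq_true,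
    Bool.not_true, Bool.not_false, Bool.false_or, Bool.true_or, Bool.or_true, Bool.or_false,
    beq_true, beq_false, Bool.or_eq_true]
  · rcases fin (hg1 h12 h43 h23 h14) with h | h
    · exact Or.inl (by simpa using h)
    · exact Or.inr (by simpa using h)
  · rcases fin (hg2 h14 h23 h43 h12) with h | h
    · exact Or.inl (by simpa using h)
    · exact Or.inr (by simpa using h)

end

end Pool.Agent.H292R3.FS.FX
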