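import Mathlib
import Pool.Agent.H292R3.FS.Sys

set_option autoImplicit false

/-!
# The fixed point theorem for two tree-like partitions of the cube
-/

namespace Pool.Agent.H292R3.FS.FX

open Pool.Agent.H292R3.FS

section

variable {n : ℕ} (S : Sys n)

open Classical in
lemma cro_symm (b : Bool) (w v : Fin n → Bool) (i : Fin n) :
    cro S b w (fl i v) i = cro S b w v i := by
  unfold cro
  rw [fl_fl, Bool.xor_comm]
  have : S.E b (fl i v) v ↔ S.E b v (fl i v) := ⟨S.symm _ _ _, S.symm _ _ _⟩
  simp only [this]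

/-- the potential whose coboundary is `cro` -/
noncomputable def pot (b : Bool) (w : Fin n → Bool) : (Fin n → Bool) → Bool :=
  Classical.choose (exists_pot n (cro S b w) (cro_symm S b w) (cro_sq b w))

open Classical in
lemma pot_adj (b : Bool) (w : Fin n → Bool) {x y : Fin n → Bool}
    (h : (cube n).Adj x y) :
    xor (pot S b w x) (pot S b w y) =
      (decide (S.E b x y) && xor (mem S b w x) (mem S b w y)) := by
  obtain ⟨i, rfl⟩ := (adj_iff x y).1 h
  exact Classical.choose_spec (exists_pot n (cro S b w) (cro_symm S b w) (cro_sq b w)) x i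

/-- the side of the edge `w` of the component graph -/
def Side (b : Bool) (w v : Fin n → Bool) : Prop := pot S b w v = pot S b w w

lemma side_self (b : Bool) (w : Fin n → Bool) : Side S b w w := rfl

lemma side_of_pot {b : Bool} {w x y : Fin n → Bool}
    (h1 : xor (pot S b w x) (pot S b w y) = false) : Side S b w x ↔ Side S b w y := by
  have h3 : pot S b w x = pot S b w y := by
    revert h1
    cases pot S b w x <;> cases pot S b w y <;> simp
  unfold Side
  rw [h3]

/-- the side changes only inside the class `b` -/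
lemma side_adj {b : Bool} {w x y : Fin n → Bool} (h : (cube n).Adj x y)
    (hn : ¬(S.E b w x ∧ S.E b w y)) :
    Side S b w x ↔ Side S b w y := by
  classical
  apply side_of_pot
  rw [pot_adj S b w h]
  by_cases hb : S.E b x y
  · have h3 := iff_of (w := w) hb
    have hx : ¬ S.E b w x := fun h4 => hn ⟨h4, h3.1 h4⟩
    have hy : ¬ S.E b w y := fun h4 => hn ⟨h3.2 h4, h4⟩
    simp [mem, hx, hy]
  · simp [hb]

lemma class_induction {b : Bool} {P : (Fin n → Bool) → Prop} {w v : Fin n → Bool}
    (h : S.E b w v) (h0 : P w)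
    (hs : ∀ x y, S.E b w x → S.E b w y → S.E b x y → (cube n).Adj x y → P x → P y) : P v := by
  have h' := S.conn b w v h
  have key : ∀ z, Relation.ReflTransGen (fun a d => (cube n).Adj a d ∧ S.E b a d) w z →
      S.E b w z ∧ P z := by
    intro z hz
    induction hz with
    | refl => exact ⟨S.refl b w, h0⟩
    | tail h1 h2 ih =>
      have h3 := S.trans _ _ _ _ ih.1 h2.2
      exact ⟨h3, hs _ _ ih.1 h3 h2.2 h2.1 ih.2⟩
  exact (key v h').2

lemma side_of_class {b b' : Bool} (hb : b' ≠ b) {w v : Fin n → Bool}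
    (h : S.E b' w v) : Side S b w v := by
  classical
  have hb' := ne_iff_not hb
  subst hb'
  refine class_induction S (P := fun v => Side S b w v) h (side_self S b w) ?_
  intro x y hwx hwy _ hxy hx
  refine (side_of_pot S ?_).1 hx
  rw [pot_adj S b w hxy]
  by_cases hE : S.E b x y
  · have h3 := iff_of (w := w) hE
    simp [mem, hwx, hwy, h3]
  · simp [hE]

lemma class_of_side {b b' : Bool} (hb : b' ≠ b) {w v : Fin n → Bool}
    (h : S.E b w v) (hS : Side S b w v) : S.E b' w v := by
  classical
  have hb' := ne_iff_not hb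
  subst hb'
  have key : xor (pot S b w w) (pot S b w v) = !(mem S b w v) := by
    refine class_induction S (P := fun v => xor (pot S b w w) (pot S b w v) = !(mem S b w v)) h
      ?_ ?_
    · simp [mem, S.refl]
    · intro x y _ _ hE hxy hx
      have h1 := pot_adj S b w hxy
      simp only [hE, decide_true, Bool.true_and] at h1
      revert h1 hx
      generalize pot S b w w = a1
      generalize pot S b w x = a2
      generalize pot S b w y = a3
      generalize mem S b w x = a4
      generalize mem S b w y = a5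
      cases a1 <;> cases a2 <;> cases a3 <;> cases a4 <;> cases a5 <;> simp
  unfold Side at hS
  rw [hS] at key
  have h2 : mem S b w v = true := by
    revert key
    cases mem S b w v <;> simp
  unfold mem at h2
  simp only [Bool.and_eq_true, decide_eq_true_eq] at h2
  exact h2.2

end

lemma cube_conn {n : ℕ} (x y : Fin n → Bool) : Relation.ReflTransGen (cube n).Adj x y := by
  have key : ∀ s : Finset (Fin n), Relation.ReflTransGen (cube n).Adj x (s.piecewise y x) := by
    intro s
    induction s using Finset.induction_on with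
    | empty => simpa using Relation.ReflTransGen.refl
    | insert i s hi ih =>
      rw [Finset.piecewise_insert]
      by_cases h : s.piecewise y x i = y i
      · rw [← h, Function.update_eq_self]
        exact ih
      · have : Function.update (s.piecewise y x) i (y i) = fl i (s.piecewise y x) := by
          unfold fl
          congr 1
          revert h
          cases y i <;> cases s.piecewise y x i <;> simp
        rw [this]
        exact ih.tail (adj_fl _ i)
  have := key Finset.univ
  simpa using this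

lemma exit_lemma {α : Type} {r : α → α → Prop} {K : α → Prop} {x z : α}
    (h : Relation.ReflTransGen r x z) (hx : K x) (hz : ¬ K z) :
    ∃ w y, K w ∧ ¬ K y ∧ r w y ∧ Relation.ReflTransGen (fun a b => r a b ∧ ¬ K a ∧ ¬ K b) y z := by
  induction h with
  | refl => exact absurd hx hz
  | @tail a b h1 h2 ih =>
    by_cases ha : K a
    · exact ⟨a, b, ha, hz, h2, Relation.ReflTransGen.refl⟩
    · obtain ⟨w, y, hw, hy, hwy, hp⟩ := ih ha
      exact ⟨w, y, hw, hy, hwy, hp.tail ⟨h2, ha, hz⟩⟩

lemma rtg_mono {α : Type} {r s : α → α → Prop} {x y : α} (h : Relation.ReflTransGen r x y)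
    (hrs : ∀ a b, r a b → s a b) : Relation.ReflTransGen s x y := by
  induction h with
  | refl => exact Relation.ReflTransGen.refl
  | tail _ h2 ih => exact ih.tail (hrs _ _ h2)

lemma flip_lemma {α : Type} {r : α → α → Prop} {P : α → Prop} {x z : α}
    (h : Relation.ReflTransGen r x z) (hx : P x) (hz : ¬ P z) :
    ∃ a b, r a b ∧ P a ∧ ¬ P b := by
  obtain ⟨w, y, hw, hy, hwy, _⟩ := exit_lemma h hx hz
  exact ⟨w, y, hwy, hw, hy⟩

section

variable {n : ℕ} (S : Sys n)

/-- the image of the class of `w` lies on the side of `w` -/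
def Dir (φ : (Fin n → Bool) → (Fin n → Bool)) (b : Bool) (w : Fin n → Bool) :
    Prop := ∀ u, S.E b w u → Side S b w (φ u)

lemma side_path {b : Bool} {w y z : Fin n → Bool}
    (h : Relation.ReflTransGen (fun a b' => (cube n).Adj a b' ∧ ¬ S.E b w a ∧
      ¬ S.E b w b') y z) : Side S b w y ↔ Side S b w z := by
  induction h with
  | refl => exact Iff.rfl
  | tail h1 h2 ih => exact ih.trans (side_adj S h2.1 fun h => h2.2.1 h.1)

lemma exists_dir (φ : (Fin n → Bool) → (Fin n → Bool))
    (hφ : ∀ x y, (cube n).Adj x y → (cube n).Adj (φ x) (φ y))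
    (hno : ∀ u b, ¬ S.E b u (φ u)) (b : Bool) (x : Fin n → Bool) :
    ∃ w, S.E b x w ∧ Dir S φ b w := by
  obtain ⟨w, y, hw, hy, hwy, hp⟩ := exit_lemma (K := fun v => S.E b x v)
    (cube_conn x (φ x)) (S.refl b x) (hno x b)
  refine ⟨w, hw, ?_⟩
  have hK : ∀ v, S.E b w v ↔ S.E b x v :=
    fun v => ⟨fun h => S.trans _ _ _ _ hw h, fun h => S.trans _ _ _ _ (S.symm _ _ _ hw) h⟩
  have hcol : S.E (!b) w y := by
    apply S.cover b w y hwy
    intro h
    exact hy (S.trans _ _ _ _ hw h)
  have hy' : Side S b w y := side_of_class S (b' := !b) (by simp) hcol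
  have hz : Side S b w (φ x) := by
    refine (side_path S (b := b) (w := w) ?_).1 hy'
    refine rtg_mono hp ?_
    rintro a b' ⟨h1, h2, h3⟩
    exact ⟨h1, fun h => h2 ((hK a).1 h), fun h => h3 ((hK b').1 h)⟩
  have hout : ∀ v, S.E b w v → ¬ S.E b w (φ v) :=
    fun v hv h => hno v b (S.trans _ _ _ _ (S.symm _ _ _ hv) h)
  intro u hu
  have hxu : S.E b x u := (hK u).1 hu
  refine class_induction S (P := fun v => Side S b w (φ v)) hxu hz ?_
  intro p q hp' _ _ hpq hS
  have hp2 : S.E b w p := (hK p).2 hp'
  exact (side_adj S (hφ _ _ hpq) fun h => hout p hp2 h.1).1 hS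

lemma descent (φ : (Fin n → Bool) → (Fin n → Bool))
    (hφ : ∀ x y, (cube n).Adj x y → (cube n).Adj (φ x) (φ y))
    (hno : ∀ u b, ¬ S.E b u (φ u)) (b : Bool) (w : Fin n → Bool)
    (hD : Dir S φ b w) :
    ∃ w', Dir S φ (!b) w' ∧ (∀ v, Side S (!b) w' v → Side S b w v) ∧
      ¬ Side S (!b) w' w := by
  obtain ⟨w', hw', hD'⟩ := exists_dir S φ hφ hno (!b) w
  have hb1 : (!b) ≠ b := by cases b <;> simp
  have hb2 : b ≠ !b := hb1.symm
  have c1 : ¬ S.E b w w' := by
    intro hR
    have hz1 : ¬ S.E b w (φ w) := hno w b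
    have hz2 : ¬ S.E (!b) w (φ w) := hno w (!b)
    have s1 : Side S b w (φ w) := hD w (S.refl b w)
    have s2 : Side S (!b) w' (φ w) := hD' w (S.symm _ _ _ hw')
    obtain ⟨w1, y1, hw1, hy1, hadj, hp⟩ := exit_lemma
      (K := fun v => S.E b w v ∨ S.E (!b) w v)
      (cube_conn w (φ w)) (Or.inl (S.refl b w))
      (fun h => h.elim hz1 hz2)
    have hy1a : ¬ S.E b w y1 := fun h => hy1 (Or.inl h)
    have hy1b : ¬ S.E (!b) w y1 := fun h => hy1 (Or.inr h)
    have t1 : Side S b w y1 := by
      refine (side_path S (b := b) (w := w) ?_).2 s1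
      refine rtg_mono hp ?_
      rintro a b' ⟨h1, h2, h3⟩
      exact ⟨h1, fun h => h2 (Or.inl h), fun h => h3 (Or.inl h)⟩
    have t2 : Side S (!b) w' y1 := by
      refine (side_path S (b := !b) (w := w') ?_).2 s2
      refine rtg_mono hp ?_
      rintro a b' ⟨h1, h2, h3⟩
      exact ⟨h1, fun h => h2 (Or.inr (S.trans _ _ _ _ hw' h)),
        fun h => h3 (Or.inr (S.trans _ _ _ _ hw' h))⟩
    have u1 : Side S b w w1 := (side_adj S hadj fun h => hy1a h.2).2 t1
    have u2 : Side S (!b) w' w1 :=
      (side_adj S hadj fun h => hy1b (S.trans _ _ _ _ hw' h.2)).2 t2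
    have both : S.E b w w1 ∧ S.E (!b) w w1 := by
      rcases hw1 with h | h
      · exact ⟨h, class_of_side S hb1 h u1⟩
      · refine ⟨?_, h⟩
        have h2 : S.E b w' w1 :=
          class_of_side S hb2 (S.trans _ _ _ _ (S.symm _ _ _ hw') h) u2
        exact S.trans _ _ _ _ hR h2
    by_cases hcol : S.E b w1 y1
    · exact hy1a (S.trans _ _ _ _ both.1 hcol)
    · exact hy1b (S.trans _ _ _ _ both.2 (S.cover _ _ _ hadj hcol))
  refine ⟨w', hD', ?_, ?_⟩
  · intro v hv
    by_contra hcon
    obtain ⟨z, z', hzz, ⟨hz1, hz2⟩, hz'⟩ := flip_lemma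
      (P := fun v => Side S (!b) w' v ∧ ¬ Side S b w v) (cube_conn v w) ⟨hv, hcon⟩
      (fun h => h.2 (side_self S b w))
    by_cases h : Side S b w z'
    · have hK : S.E b w z ∧ S.E b w z' := by
        by_contra hn
        exact hz2 ((side_adj S hzz hn).2 h)
      have hzK' : ¬ S.E (!b) w z := fun h4 => hz2 (side_of_class S hb1 h4)
      have hS' : Side S (!b) w' z' :=
        (side_adj S hzz fun h4 => hzK' (S.trans _ _ _ _ hw' h4.1)).1 hz1
      have h5 : S.E (!b) w z' := class_of_side S hb1 hK.2 h
      have h6 : S.E b w' z' :=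
        class_of_side S hb2 (S.trans _ _ _ _ (S.symm _ _ _ hw') h5) hS'
      exact c1 (S.trans _ _ _ _ hK.2 (S.symm _ _ _ h6))
    · have hS' : ¬ Side S (!b) w' z' := fun h4 => hz' ⟨h4, h⟩
      have hK : S.E (!b) w' z ∧ S.E (!b) w' z' := by
        by_contra hn
        exact hS' ((side_adj S hzz hn).1 hz1)
      exact hz2 (side_of_class S hb1 (S.trans _ _ _ _ hw' hK.1))
  · intro h
    have h6 : S.E b w' w := class_of_side S hb2 (S.symm _ _ _ hw') h
    exact c1 (S.symm _ _ _ h6)

theorem main (φ : (Fin n → Bool) → (Fin n → Bool))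
    (hφ : ∀ x y, (cube n).Adj x y → (cube n).Adj (φ x) (φ y)) :
    ∃ u b, S.E b u (φ u) := by
  classical
  by_contra hcon
  push Not at hcon
  have key : ∀ (N : ℕ) (b : Bool) (w : Fin n → Bool),
      (Finset.univ.filter fun v => Side S b w v).card ≤ N → ¬ Dir S φ b w := by
    intro N
    induction N with
    | zero =>
      intro b w hN _
      have : w ∈ Finset.univ.filter fun v => Side S b w v := by
        simp [side_self]
      have := Finset.card_pos.2 ⟨w, this⟩
      omega
    | succ N ih =>
      intro b w hN hD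
      obtain ⟨w', hD', hsub, hnot⟩ := descent S φ hφ hcon b w hD
      refine ih (!b) w' ?_ hD'
      have hlt : (Finset.univ.filter fun v => Side S (!b) w' v).card <
          (Finset.univ.filter fun v => Side S b w v).card := by
        apply Finset.card_lt_card
        rw [Finset.ssubset_iff_of_subset]
        · exact ⟨w, by simp [side_self], by simpa using hnot⟩
        · intro v hv
          simp only [Finset.mem_filter, Finset.mem_univ, true_and] at hv ⊢
          exact hsub v hv
      omega
  obtain ⟨w, _, hD⟩ := exists_dir S φ hφ hcon false (fun _ => false)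
  exact key _ _ _ le_rfl hD

end

end Pool.Agent.H292R3.FS.FX
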